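import Pool.Agent.Lib.MP_cb3775_ag.F.Const
import Pool.Agent.Lib.MP_cb3775_ag.E.Gen

/-!
# The CM points are the points where all the units are roots of unity

`cm_of_rational`: if the period matrix is rational then the Mumford-Tate group is a conjugate of the image of
`t ↦ t ^ (- p)`. `cm_iff`: roots of unity have rational logarithms, so the period matrix `C exp (∑ l j M j)` is
rational (`rational_const`, `exp_lin_poly`).
-/

set_option autoImplicit false

namespace MP_cb3775_ag

open Filter Topology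

variable {n N r : ℕ} {B : Base n}

private theorem cmi_qc_mul (C D : Matrix (Fin N) (Fin N) ℚ) : qc (C * D) = qc C * qc D := by
  ext a b
  simp [qc, Matrix.mul_apply]

private theorem cmi_qc_det (C : Matrix (Fin N) (Fin N) ℚ) : (qc C).det = (C.det : ℂ) := by
  have h := RingHom.map_det (algebraMap ℚ ℂ) C
  exact h.symm

theorem cm_of_rational (V : Variation B N) {s : Pt n} (hs : s ∈ B.pts)
    (h : ∀ i, s ∈ V.U i → ∃ C : Matrix (Fin N) (Fin N) ℚ, V.u i s = qc C) : V.IsCM s := by
  intro i hi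
  obtain ⟨C, hC⟩ := h i hi
  have hu := V.u_unip (i := i) (s := s) ⟨hi, hs⟩
  have hdet : (V.u i s).det = 1 := isUnip_det hu
  have hCd : IsUnit C.det := by
    rw [hC, cmi_qc_det] at hdet
    have h1 : C.det = 1 := by exact_mod_cast hdet
    rw [h1]
    exact isUnit_one
  have hqd : IsUnit (qc C).det := by
    rw [← hC, hdet]
    exact isUnit_one
  let M : Fin 0 → Matrix (Fin N) (Fin N) ℤ := fun j => j.elim0
  have hM : ∀ j, IsStep V.p (M j) := fun j => j.elim0
  have hc : ∀ j k, M j * M k = M k * M j := fun j => j.elim0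
  have hlin : ∀ c : Fin 0 → ℂ, lin M c = 0 := by
    intro c
    simp [lin]
  -- the Mumford-Tate group
  have key : ∀ A ∈ V.MT i s, ∃ t : ℂ, A = qc C * tdiag V.p t * (qc C)⁻¹ := by
    intro A hA
    have h1 := (V.mem_MT_iff (i := i) (s := s) ⟨hi, hs⟩ A).1 hA _
      (qgroup_conj (model_qgroup hM hc) C hCd) (by
        intro t ht
        refine ⟨0, t, ht, ?_⟩
        rw [hlin, NormedSpace.exp_zero, one_mul, hC]
        rw [mul_assoc, mul_assoc, mul_assoc, Matrix.nonsing_inv_mul _ hqd, mul_one, ← mul_assoc,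
          Matrix.nonsing_inv_mul _ hqd, one_mul])
    obtain ⟨c, t, ht, h2⟩ := h1
    rw [hlin, NormedSpace.exp_zero, one_mul] at h2
    refine ⟨t, ?_⟩
    rw [← h2]
    rw [mul_assoc, mul_assoc, mul_assoc, Matrix.mul_nonsing_inv _ hqd, mul_one, ← mul_assoc,
      Matrix.mul_nonsing_inv _ hqd, one_mul]
  constructor
  · intro A hA A' hA'
    obtain ⟨t, rfl⟩ := key A hA
    obtain ⟨t', rfl⟩ := key A' hA'
    have h1 : ∀ x y : ℂ, qc C * tdiag V.p x * (qc C)⁻¹ * (qc C * tdiag V.p y * (qc C)⁻¹) =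
        qc C * (tdiag V.p x * tdiag V.p y) * (qc C)⁻¹ := by
      intro x y
      calc qc C * tdiag V.p x * (qc C)⁻¹ * (qc C * tdiag V.p y * (qc C)⁻¹)
          = qc C * tdiag V.p x * ((qc C)⁻¹ * qc C) * (tdiag V.p y * (qc C)⁻¹) := by
            simp only [mul_assoc]
        _ = _ := by
            rw [Matrix.nonsing_inv_mul _ hqd, mul_one]
            simp only [mul_assoc]
    rw [h1, h1]
    congr 2
    unfold tdiag
    rw [Matrix.diagonal_mul_diagonal, Matrix.diagonal_mul_diagonal]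
    congr 1
    funext a
    exact mul_comm _ _
  · intro A hA
    obtain ⟨t, rfl⟩ := key A hA
    refine ⟨qc C, hqd, ?_⟩
    have h1 : (qc C)⁻¹ * (qc C * tdiag V.p t * (qc C)⁻¹) * qc C = tdiag V.p t := by
      rw [mul_assoc, mul_assoc, mul_assoc, Matrix.nonsing_inv_mul _ hqd, mul_one, ← mul_assoc,
        Matrix.nonsing_inv_mul _ hqd, one_mul]
    rw [h1]
    exact Matrix.isDiag_diagonal _

theorem cm_iff {V : Variation B N} {y : Fin r → Pt n → ℂ}
    {M : Fin r → Matrix (Fin N) (Fin N) ℤ} (hV : HasUnits V y M)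
    (hc : ∀ j k, M j * M k = M k * M j)
    (hτ : ∀ j, ∃ v : Fin N → Fin N → ℤ, (∀ a b, v a b ≠ 0 → V.p a = V.p b - 1) ∧
      ∀ s ∈ B.pts, y j s = ∏ a, ∏ b, V.q a b s ^ v a b)
    (hCM : B.ZDense {s | s ∈ B.pts ∧ V.IsCM s}) {s : Pt n} (hs : s ∈ B.pts) :
    V.IsCM s ↔ ∀ j, ∃ k : ℕ, 0 < k ∧ y j s ^ k = 1 := by
  constructor
  · intro h j
    exact torsion_of_cm hτ hs h j
  · intro h
    refine cm_of_rational V hs fun i hi => ?_
    choose l hl using fun j => e_surj (hV.2.2.1 j s hs)
    have hr : ∀ j, ∃ c : ℚ, l j = (c : ℂ) := by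
      intro j
      apply (e_root_iff (l j)).1
      rw [hl j]
      exact h j
    choose c hc' using hr
    obtain ⟨C, -, hu⟩ := rational_const hV hc hτ hCM (i := i) ⟨hi, hs⟩ l hl
    choose f hf using fun a b => exp_lin_poly hV.1 a b
    refine ⟨C * Matrix.of fun a b => MvPolynomial.aeval c (f a b), ?_⟩
    rw [hu, cmi_qc_mul]
    congr 1
    ext a b
    rw [hf a b l]
    have h1 : l = (algebraMap ℚ ℂ) ∘ c := by
      funext j
      rw [hc' j]
      rfl
    have h2 : (MvPolynomial.aeval l) (f a b) = algebraMap ℚ ℂ (MvPolynomial.aeval c (f a b)) := by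
      rw [h1, MvPolynomial.aeval_algebraMap_apply]
    exact h2

end MP_cb3775_ag
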