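import Pool.Agent.Lib.MP_cb3775_ag.F.Log
import Pool.Agent.Lib.MP_cb3775_ag.B.Jac

/-!
# The matrices commute (Maurer - Cartan) and the period matrix is `C exp (lin M ℓ)`

`commute_units`: put `U x = V.u i (x, σ x)`, `A x w = lin M (D ℓ x w)`, `D U x w = U x * A x w` for `x` near `s.1`. The
second derivative of `U` and those of the `ℓ j` are symmetric, so `A x w * A x w' = A x w' * A x w`, i.e.
`∑ j k, (M j * M k - M k * M j) * Dℓ_j (w) * Dℓ_k (w') = 0`, at every point of `S`. At the point `s` of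
`exists_indep_differentials` the `D y_j`, so the `D ℓ_j = D y_j / (2 π i y_j)`, are linearly independent, so
there are `w_j` with `Dℓ_k (w_j) = δ_(jk)`: `M j * M k - M k * M j = 0`.
`u_local`: the derivative of `U x * exp (- lin M (ℓ x))` is `0` near `s.1` (the `M j` commute), so it is constant
on a ball.
-/

set_option autoImplicit false

namespace MP_cb3775_ag

open Filter Topology

variable {n N r : ℕ} {B : Base n}

private theorem comm_lin_apply (M : Fin r → Matrix (Fin N) (Fin N) ℤ) (c : Fin r → ℂ)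
    (a b : Fin N) : lin M c a b = ∑ j, c j * (M j a b : ℂ) := by
  simp [lin, zc, Matrix.sum_apply]

/-- The Maurer - Cartan equation. -/
private theorem comm_aux {E : Type} [NormedAddCommGroup E] [NormedSpace ℂ E] {x₀ : E}
    (M : Fin r → Matrix (Fin N) (Fin N) ℤ) (U : E → Matrix (Fin N) (Fin N) ℂ)
    (hU : ∀ a b, AnalyticAt ℂ (fun x => U x a b) x₀) (ℓ : Fin r → E → ℂ)
    (hℓ : ∀ j, AnalyticAt ℂ (ℓ j) x₀)
    (hder : ∀ᶠ x in 𝓝 x₀, ∀ (w : E) (a b : Fin N), fderiv ℂ (fun x => U x a b) x w =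
      (U x * lin M (fun j => fderiv ℂ (ℓ j) x w)) a b)
    (hdet : IsUnit (U x₀).det) (w w' : E) :
    lin M (fun j => fderiv ℂ (ℓ j) x₀ w) * lin M (fun j => fderiv ℂ (ℓ j) x₀ w') =
      lin M (fun j => fderiv ℂ (ℓ j) x₀ w') * lin M (fun j => fderiv ℂ (ℓ j) x₀ w) := by
  have key : ∀ (w w' : E) (a b : Fin N),
      fderiv ℂ (fderiv ℂ fun x => U x a b) x₀ w' w =
        (∑ c, U x₀ a c * ∑ j, fderiv ℂ (fderiv ℂ (ℓ j)) x₀ w' w * (M j c b : ℂ)) +
        (U x₀ * lin M (fun j => fderiv ℂ (ℓ j) x₀ w') *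
          lin M (fun j => fderiv ℂ (ℓ j) x₀ w)) a b := by
    intro w w' a b
    have h1 : HasFDerivAt (fun x => fderiv ℂ (fun x => U x a b) x w)
        ((fderiv ℂ (fderiv ℂ fun x => U x a b) x₀).flip w) x₀ := by
      have h := ((hU a b).fderiv.differentiableAt.hasFDerivAt).clm_apply
        (hasFDerivAt_const w x₀)
      simpa using h
    have h2 : ∀ j, HasFDerivAt (fun x => fderiv ℂ (ℓ j) x w)
        ((fderiv ℂ (fderiv ℂ (ℓ j)) x₀).flip w) x₀ := by
      intro j
      have h := ((hℓ j).fderiv.differentiableAt.hasFDerivAt).clm_apply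
        (hasFDerivAt_const w x₀)
      simpa using h
    have h3 : ∀ c, HasFDerivAt (fun x => ∑ j, fderiv ℂ (ℓ j) x w * (M j c b : ℂ))
        (∑ j, (M j c b : ℂ) • (fderiv ℂ (fderiv ℂ (ℓ j)) x₀).flip w) x₀ := by
      intro c
      exact HasFDerivAt.fun_sum fun j _ => (h2 j).mul_const _
    have h4 : HasFDerivAt (fun x => ∑ c, U x a c * ∑ j, fderiv ℂ (ℓ j) x w * (M j c b : ℂ))
        (∑ c, (U x₀ a c • (∑ j, (M j c b : ℂ) • (fderiv ℂ (fderiv ℂ (ℓ j)) x₀).flip w) +
          (∑ j, fderiv ℂ (ℓ j) x₀ w * (M j c b : ℂ)) • fderiv ℂ (fun x => U x a c) x₀)) x₀ :=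
      HasFDerivAt.fun_sum fun c _ => (hU a c).differentiableAt.hasFDerivAt.mul (h3 c)
    have h5 : (fun x => fderiv ℂ (fun x => U x a b) x w) =ᶠ[𝓝 x₀]
        fun x => ∑ c, U x a c * ∑ j, fderiv ℂ (ℓ j) x w * (M j c b : ℂ) := by
      filter_upwards [hder] with x hx
      rw [hx w a b, Matrix.mul_apply]
      simp only [comm_lin_apply]
    have h6 := h1.unique (h4.congr_of_eventuallyEq h5)
    have h7 := congrArg (fun L => L w') h6
    simp only [ContinuousLinearMap.flip_apply] at h7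
    rw [h7]
    simp only [ContinuousLinearMap.sum_apply, ContinuousLinearMap.add_apply,
      ContinuousLinearMap.smul_apply, ContinuousLinearMap.flip_apply, smul_eq_mul]
    rw [Finset.sum_add_distrib]
    refine congrArg₂ (· + ·) ?_ ?_
    · refine Finset.sum_congr rfl fun c _ => ?_
      refine congrArg _ (Finset.sum_congr rfl fun j _ => ?_)
      ring
    · rw [Matrix.mul_apply]
      refine Finset.sum_congr rfl fun c _ => ?_
      rw [hder.self_of_nhds w' a c, comm_lin_apply M _ c b]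
      ring
  have hsym : ∀ {f : E → ℂ}, AnalyticAt ℂ f x₀ → ∀ w w' : E,
      fderiv ℂ (fderiv ℂ f) x₀ w w' = fderiv ℂ (fderiv ℂ f) x₀ w' w := by
    intro f hf w w'
    exact (hf.contDiffAt (n := 2)).isSymmSndFDerivAt (by simp) w w'
  have hmul : U x₀ * (lin M (fun j => fderiv ℂ (ℓ j) x₀ w) *
      lin M (fun j => fderiv ℂ (ℓ j) x₀ w')) =
      U x₀ * (lin M (fun j => fderiv ℂ (ℓ j) x₀ w') *
      lin M (fun j => fderiv ℂ (ℓ j) x₀ w)) := by
    ext a b
    have h1 := key w w' a b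
    have h2 := key w' w a b
    rw [hsym (hU a b) w' w, h2] at h1
    have h3 : (∑ c, U x₀ a c * ∑ j, fderiv ℂ (fderiv ℂ (ℓ j)) x₀ w w' * (M j c b : ℂ)) =
        ∑ c, U x₀ a c * ∑ j, fderiv ℂ (fderiv ℂ (ℓ j)) x₀ w' w * (M j c b : ℂ) := by
      refine Finset.sum_congr rfl fun c _ => congrArg _ (Finset.sum_congr rfl fun j _ => ?_)
      rw [hsym (hℓ j)]
    rw [h3] at h1
    rw [← Matrix.mul_assoc, ← Matrix.mul_assoc]
    exact add_left_cancel h1
  have h := congrArg (fun X => (U x₀)⁻¹ * X) hmul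
  simpa [← Matrix.mul_assoc, Matrix.nonsing_inv_mul _ hdet] using h

/-- Linearly independent linear forms take arbitrary values. -/
private theorem comm_exists_vec {E : Type} [NormedAddCommGroup E] [NormedSpace ℂ E]
    (L : Fin r → E →L[ℂ] ℂ) (hL : LinearIndependent ℂ L) (c : Fin r → ℂ) :
    ∃ w, ∀ k, L k w = c k := by
  let T : E →ₗ[ℂ] (Fin r → ℂ) := LinearMap.pi fun k => (L k : E →ₗ[ℂ] ℂ)
  have hT : Function.Surjective T := by
    rw [← LinearMap.range_eq_top]
    by_contra hne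
    obtain ⟨φ, hφ, hle⟩ := (LinearMap.range T).exists_le_ker_of_lt_top
      (lt_of_le_of_ne le_top hne)
    have h1 : ∑ k, φ (Pi.single k 1) • L k = 0 := by
      ext w
      have h2 : φ (T w) = 0 := hle ⟨w, rfl⟩
      have h3 : T w = ∑ k, (L k w) • (Pi.single k (1 : ℂ) : Fin r → ℂ) := by
        ext k
        simp [T, Finset.sum_apply, Pi.single_apply]
      rw [h3, map_sum] at h2
      simp only [ContinuousLinearMap.sum_apply, ContinuousLinearMap.smul_apply, smul_eq_mul,
        ContinuousLinearMap.zero_apply]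
      rw [← h2]
      refine Finset.sum_congr rfl fun k _ => ?_
      rw [map_smul, smul_eq_mul, mul_comm]
    have h4 := Fintype.linearIndependent_iff.mp hL _ h1
    apply hφ
    refine LinearMap.pi_ext' fun k => ?_
    ext
    simpa using h4 k
  obtain ⟨w, hw⟩ := hT c
  exact ⟨w, fun k => congrFun hw k⟩

theorem commute_units {V : Variation B N} {y : Fin r → Pt n → ℂ}
    {M : Fin r → Matrix (Fin N) (Fin N) ℤ} (hV : HasUnits V y M) (hy : ∀ j, B.IsRational (y j))
    (hind : B.AlgIndep y) : ∀ j k, M j * M k = M k * M j := by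
  obtain ⟨s, hs, σ, hσ, hlin⟩ := exists_indep_differentials y hy hV.2.1 hind
  obtain ⟨i, hi⟩ := Set.mem_iUnion.mp (V.cover hs)
  have hsU : s ∈ V.U i ∩ B.pts := ⟨hi, hs⟩
  have hlog : ∀ j, ∃ l : ℂ, e l = y j s := by
    intro j
    have hne : y j s ≠ 0 := hV.2.2.1 j s hs
    refine ⟨Complex.log (y j s) / (2 * Real.pi * Complex.I), ?_⟩
    have h2 : (2 * Real.pi * Complex.I : ℂ) ≠ 0 := Complex.two_pi_I_ne_zero
    rw [e, mul_div_cancel₀ _ h2, Complex.exp_log hne]
  choose l hl using hlog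
  obtain ⟨ℓ, hℓ, -, hev⟩ := exists_logs y hV.2.1 hV.2.2.1 hs hσ l hl
  have hU : ∀ a b, AnalyticAt ℂ (fun x => V.u i (x, σ x) a b) s.1 := fun a b =>
    (V.u_hol hsU a b).comp_section hσ
  have hσs : (s.1, σ s.1) = s := by rw [hσ.2.1]
  have hdet : IsUnit (V.u i (s.1, σ s.1)).det := by
    rw [hσs, isUnip_det (V.u_unip hsU)]
    exact isUnit_one
  have hcomm := comm_aux M (fun x => V.u i (x, σ x)) hU ℓ hℓ (u_deriv_log hV hsU hσ ℓ hℓ hev)
    hdet
  -- the differentials of the `ℓ j` are linearly independent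
  have hlin' : LinearIndependent ℂ fun j => fderiv ℂ (ℓ j) s.1 := by
    have hd : ∀ j, fderiv ℂ (fun x => y j (x, σ x)) s.1 =
        ((2 * Real.pi * Complex.I : ℂ) * y j s) • fderiv ℂ (ℓ j) s.1 := by
      intro j
      have h1 : (fun x => y j (x, σ x)) =ᶠ[𝓝 s.1] fun x => e (ℓ j x) := by
        filter_upwards [hev] with x hx
        exact (hx j).symm
      rw [h1.fderiv_eq]
      have h2 : HasFDerivAt (fun x => e (ℓ j x))
          (Complex.exp (2 * Real.pi * Complex.I * ℓ j s.1) •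
            ((2 * Real.pi * Complex.I : ℂ) • fderiv ℂ (ℓ j) s.1)) s.1 :=
        ((hℓ j).differentiableAt.hasFDerivAt.const_mul _).cexp
      rw [h2.fderiv, smul_smul]
      have h3 : Complex.exp (2 * Real.pi * Complex.I * ℓ j s.1) = y j s := by
        have h4 := hev.self_of_nhds j
        rw [hσs] at h4
        exact h4
      rw [h3, mul_comm]
    have hne : ∀ j, ((2 * Real.pi * Complex.I : ℂ) * y j s) ≠ 0 := fun j =>
      mul_ne_zero Complex.two_pi_I_ne_zero (hV.2.2.1 j s hs)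
    have h5 := hlin.units_smul fun j => (Units.mk0 _ (hne j))⁻¹
    have h6 : ((fun j => (Units.mk0 _ (hne j))⁻¹) •
        fun j => fderiv ℂ (fun x => y j (x, σ x)) s.1) = fun j => fderiv ℂ (ℓ j) s.1 := by
      funext j
      rw [Pi.smul_apply', hd j, Units.smul_def, Units.val_inv_eq_inv_val, Units.val_mk0,
        smul_smul, inv_mul_cancel₀ (hne j), one_smul]
    rw [h6] at h5
    exact h5
  intro j k
  obtain ⟨w, hw⟩ := comm_exists_vec _ hlin' (Pi.single j 1)
  obtain ⟨w', hw'⟩ := comm_exists_vec _ hlin' (Pi.single k 1)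
  have h := hcomm w w'
  have h1 : ∀ (j : Fin r) (w : Fin n → ℂ),
      (∀ k, fderiv ℂ (ℓ k) s.1 w = (Pi.single j 1 : Fin r → ℂ) k) →
      lin M (fun k => fderiv ℂ (ℓ k) s.1 w) = zc (M j) := by
    intro j w hw
    have h2 : (fun k => fderiv ℂ (ℓ k) s.1 w) = Pi.single j 1 := funext hw
    rw [h2, lin]
    simp [Pi.single_apply]
  rw [h1 j w hw, h1 k w' hw'] at h
  have h3 : ∀ A A' : Matrix (Fin N) (Fin N) ℤ, zc A * zc A' = zc (A * A') := by
    intro A A'
    exact (Matrix.map_mul (f := Int.castRingHom ℂ)).symm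
  rw [h3, h3] at h
  exact Matrix.map_injective Int.cast_injective h

end MP_cb3775_ag
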