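import Pool.Agent.Lib.MP_cb3775_ag.F.Loc
import Pool.Agent.Lib.MP_cb3775_ag.E.Hodge
import Pool.Agent.Lib.MP_cb3775_ag.C.SConn

/-!
# The constant matrix is rational

PROOF. Let `Good s` : for all (equivalently one) `i` with `s ∈ U i` and all (equivalently one) `l` with
`e (l j) = y j s` the matrix `u i s * exp (- lin M l)` has rational entries. Independent of `l` (another `l`
differs by integers `k`, `exp (lin M k)` is rational) and of `i` (`u_glue`, integral invertible matrices).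
By `u_local` and `exists_logs`, `Good` is locally constant on `S` (as a function to `Prop`), so constant
(`const_of_locConst`). It holds at a CM point: `u i s` is rational (`Variation.cm_rational`), so the `q a b s` are
roots of unity, so are the `y j s` (hypothesis `hτ`), so `l` is rational (`e_root_iff`) and
`exp (- lin M l)` is rational (`exp_lin_poly`). A CM point exists (`ZDense` and `Base.pts_nonempty`, `f = 1`).
-/

set_option autoImplicit false

namespace MP_cb3775_ag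

open Filter Topology

variable {n N r : ℕ} {B : Base n}

/-! ### roots of unity -/

private def Tors (z : ℂ) : Prop := ∃ k : ℕ, 0 < k ∧ z ^ k = 1

private theorem Tors.one : Tors 1 := ⟨1, Nat.one_pos, one_pow 1⟩

private theorem Tors.mul {z w : ℂ} (hz : Tors z) (hw : Tors w) : Tors (z * w) := by
  obtain ⟨k, hk, h1⟩ := hz
  obtain ⟨m, hm, h2⟩ := hw
  refine ⟨k * m, Nat.mul_pos hk hm, ?_⟩
  rw [mul_pow, pow_mul, h1, one_pow, one_mul, mul_comm k m, pow_mul, h2, one_pow]

private theorem Tors.zpow {z : ℂ} (hz : Tors z) (m : ℤ) : Tors (z ^ m) := by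
  obtain ⟨k, hk, h1⟩ := hz
  refine ⟨k, hk, ?_⟩
  rw [← zpow_natCast (z ^ m) k, ← zpow_mul, mul_comm, zpow_mul, zpow_natCast, h1, one_zpow]

private theorem Tors.prod {ι : Type} (s : Finset ι) (f : ι → ℂ) (h : ∀ i ∈ s, Tors (f i)) :
    Tors (∏ i ∈ s, f i) := by
  classical
  induction s using Finset.induction_on with
  | empty => rw [Finset.prod_empty]; exact Tors.one
  | insert a s ha ih =>
    rw [Finset.prod_insert ha]
    exact (h a (Finset.mem_insert_self a s)).mul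
      (ih fun i hi => h i (Finset.mem_insert_of_mem hi))

/-- at a point where the period matrix is rational the `y j` are roots of unity. -/
theorem torsion_of_cm {V : Variation B N} {y : Fin r → Pt n → ℂ}
    (hτ : ∀ j, ∃ v : Fin N → Fin N → ℤ, (∀ a b, v a b ≠ 0 → V.p a = V.p b - 1) ∧
      ∀ s ∈ B.pts, y j s = ∏ a, ∏ b, V.q a b s ^ v a b) {s : Pt n} (hs : s ∈ B.pts)
    (h : V.IsCM s) (j : Fin r) : ∃ k : ℕ, 0 < k ∧ y j s ^ k = 1 := by
  obtain ⟨i, hi⟩ := Set.mem_iUnion.1 (V.cover hs)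
  obtain ⟨C, hC⟩ := V.cm_rational (i := i) ⟨hi, hs⟩ h
  obtain ⟨v, hv, hy⟩ := hτ j
  rw [hy s hs]
  refine Tors.prod _ _ fun a _ => Tors.prod _ _ fun b _ => ?_
  by_cases h0 : v a b = 0
  · rw [h0, zpow_zero]
    exact Tors.one
  · refine Tors.zpow ?_ _
    rw [V.q_eq (hv a b h0) ⟨hi, hs⟩]
    refine (e_root_iff _).2 ⟨C a b, ?_⟩
    rw [hC]
    rfl

/-! ### rational matrices -/

private theorem qc_mul (A A' : Matrix (Fin N) (Fin N) ℚ) : qc (A * A') = qc A * qc A' := by
  unfold qc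
  ext a b
  simp [Matrix.mul_apply]

private theorem zc_eq_qc (A : Matrix (Fin N) (Fin N) ℤ) :
    zc A = qc (A.map fun m => (m : ℚ)) := by
  unfold zc qc
  ext a b
  simp

private theorem exp_lin_rat {p : Fin N → ℤ} {M : Fin r → Matrix (Fin N) (Fin N) ℤ}
    (hM : ∀ j, IsStep p (M j)) (c : Fin r → ℚ) :
    ∃ C : Matrix (Fin N) (Fin N) ℚ, NormedSpace.exp (lin M fun j => (c j : ℂ)) = qc C := by
  choose f hf using fun a b => exp_lin_poly hM a b
  refine ⟨fun a b => MvPolynomial.eval c (f a b), ?_⟩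
  ext a b
  rw [hf a b]
  have h1 : (fun j => (c j : ℂ)) = fun j => algebraMap ℚ ℂ (c j) := rfl
  rw [h1]
  have h2 := MvPolynomial.aeval_algebraMap_apply (A := ℚ) ℂ c (f a b)
  have h3 : (algebraMap ℚ ℂ ∘ c) = fun j => algebraMap ℚ ℂ (c j) := rfl
  rw [h3] at h2
  rw [h2]
  rfl

private theorem lin_zero (M : Fin r → Matrix (Fin N) (Fin N) ℤ) : lin M 0 = 0 := by
  simp [lin]

private theorem exp_lin_neg_mul {M : Fin r → Matrix (Fin N) (Fin N) ℤ}
    (hc : ∀ j k, M j * M k = M k * M j) (l : Fin r → ℂ) :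
    NormedSpace.exp (lin M (-l)) * NormedSpace.exp (lin M l) = 1 := by
  rw [← exp_lin_add hc, neg_add_cancel, lin_zero, NormedSpace.exp_zero]

/-- the matrix `u * exp (- lin M l)` is rational. -/
private def Inst (V : Variation B N) (M : Fin r → Matrix (Fin N) (Fin N) ℤ) (i : V.ι) (s : Pt n)
    (l : Fin r → ℂ) : Prop :=
  ∃ C : Matrix (Fin N) (Fin N) ℚ, V.u i s * NormedSpace.exp (lin M (-l)) = qc C

private theorem Inst.change {V : Variation B N} {y : Fin r → Pt n → ℂ}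
    {M : Fin r → Matrix (Fin N) (Fin N) ℤ} (hV : HasUnits V y M)
    (hc : ∀ j k, M j * M k = M k * M j) {i i' : V.ι} {s : Pt n} (hi : s ∈ V.U i)
    (hi' : s ∈ V.U i') (hs : s ∈ B.pts) {l l' : Fin r → ℂ} (hl : ∀ j, e (l j) = y j s)
    (hl' : ∀ j, e (l' j) = y j s) (h : Inst V M i s l) : Inst V M i' s l' := by
  obtain ⟨C, hC⟩ := h
  have hk : ∀ j, ∃ m : ℤ, l j = l' j + m := fun j => (e_eq_iff _ _).1 (by rw [hl j, hl' j])
  choose m hm using hk
  obtain ⟨D, hD⟩ := exp_lin_rat hV.1 (fun j => (m j : ℚ))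
  have h1 : (-l' : Fin r → ℂ) = -l + fun j => (((m j : ℚ)) : ℂ) := by
    funext j
    simp only [Pi.neg_apply, Pi.add_apply, hm j]
    push_cast
    ring
  refine ⟨(V.g i' i s).map (fun m => (m : ℚ)) * C * D, ?_⟩
  rw [h1, exp_lin_add hc, hD, V.u_glue ⟨⟨hi', hi⟩, hs⟩, zc_eq_qc, qc_mul, qc_mul, ← hC]
  simp only [Matrix.mul_assoc]

private def Good (V : Variation B N) (y : Fin r → Pt n → ℂ)
    (M : Fin r → Matrix (Fin N) (Fin N) ℤ) (s : Pt n) : Prop :=
  ∀ i, s ∈ V.U i → ∀ l : Fin r → ℂ, (∀ j, e (l j) = y j s) → Inst V M i s l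

theorem rational_const {V : Variation B N} {y : Fin r → Pt n → ℂ}
    {M : Fin r → Matrix (Fin N) (Fin N) ℤ} (hV : HasUnits V y M)
    (hc : ∀ j k, M j * M k = M k * M j)
    (hτ : ∀ j, ∃ v : Fin N → Fin N → ℤ, (∀ a b, v a b ≠ 0 → V.p a = V.p b - 1) ∧
      ∀ s ∈ B.pts, y j s = ∏ a, ∏ b, V.q a b s ^ v a b)
    (hCM : B.ZDense {s | s ∈ B.pts ∧ V.IsCM s}) {i : V.ι} {s : Pt n} (hs : s ∈ V.U i ∩ B.pts)
    (l : Fin r → ℂ) (hl : ∀ j, e (l j) = y j s) :
    ∃ C : Matrix (Fin N) (Fin N) ℚ, IsUnip V.p C ∧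
      V.u i s = qc C * NormedSpace.exp (lin M l) := by
  -- `Good` is locally constant
  have hloc : ∀ s ∈ B.pts, ∀ᶠ t in 𝓝[B.pts] s, Good V y M t = Good V y M s := by
    intro s hs
    obtain ⟨i, hi⟩ := Set.mem_iUnion.1 (V.cover hs)
    obtain ⟨σ, hσ⟩ := B.section_exists s hs
    choose l hl using fun j => e_surj (hV.2.2.1 j s hs)
    obtain ⟨ℓ, hℓ, hℓs, hℓe⟩ := exists_logs y hV.2.1 hV.2.2.1 hs hσ l hl
    obtain ⟨C, hC⟩ := u_local hV hc ⟨hi, hs⟩ hσ ℓ hℓ hℓe
    have hss : (s.1, σ s.1) = s := by rw [hσ.2.1]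
    have hcont : ContinuousAt (fun x : Fin n → ℂ => ((x, σ x) : Pt n)) s.1 :=
      continuousAt_id.prodMk hσ.1.continuousAt
    have hU : ∀ᶠ x in 𝓝 s.1, (x, σ x) ∈ V.U i := by
      have h0 : V.U i ∈ 𝓝 ((s.1, σ s.1) : Pt n) := by
        rw [hss]
        exact (V.isOpen i).mem_nhds hi
      exact hcont.eventually h0
    -- near `s` the condition is the rationality of `C`
    have key : ∀ᶠ x in 𝓝 s.1, (Good V y M (x, σ x) ↔
        ∃ C' : Matrix (Fin N) (Fin N) ℚ, C = qc C') := by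
      filter_upwards [hℓe, hC, hU, hσ.eventually_mem] with x hx1 hx2 hx3 hx4
      have h1 : V.u i (x, σ x) * NormedSpace.exp (lin M (-fun j => ℓ j x)) = C := by
        rw [hx2, Matrix.mul_assoc, ← exp_lin_add hc, add_neg_cancel, lin_zero,
          NormedSpace.exp_zero, Matrix.mul_one]
      constructor
      · intro hg
        obtain ⟨C', hC'⟩ := hg i hx3 _ hx1
        exact ⟨C', by rw [← h1, hC']⟩
      · rintro ⟨C', hC'⟩ i' hi' l' hl'
        exact Inst.change hV hc hx3 hi' hx4 hx1 hl' ⟨C', by rw [h1, hC']⟩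
    have key0 := key.self_of_nhds
    rw [hss] at key0
    rw [Base.eventually_nhdsWithin_iff hσ]
    filter_upwards [key] with x hx
    exact propext (hx.trans key0.symm)
  -- a CM point
  obtain ⟨s0, hs0, hcm⟩ : ∃ s0, s0 ∈ B.pts ∧ V.IsCM s0 := by
    by_contra hno
    push Not at hno
    have h1 := hCM 1 (fun t ht => absurd ht.2 (hno t ht.1)) s hs.2
    rw [map_one] at h1
    exact one_ne_zero h1
  have hgood0 : Good V y M s0 := by
    intro i hi l hl
    obtain ⟨C, hC⟩ := V.cm_rational (i := i) ⟨hi, hs0⟩ hcm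
    have hr : ∀ j, ∃ c : ℚ, l j = (c : ℂ) := fun j =>
      (e_root_iff _).1 (by rw [hl j]; exact torsion_of_cm hτ hs0 hcm j)
    choose c hcj using hr
    obtain ⟨D, hD⟩ := exp_lin_rat hV.1 (fun j => -c j)
    have h1 : (-l : Fin r → ℂ) = fun j => (((-c j : ℚ)) : ℂ) := by
      funext j
      rw [Pi.neg_apply, hcj j]
      push_cast
      ring
    refine ⟨C * D, ?_⟩
    rw [h1, hD, hC, qc_mul]
  have hgood : Good V y M s := by
    have := const_of_locConst B (Good V y M) hloc s0 hs0 s hs.2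
    rw [← this]
    exact hgood0
  obtain ⟨C, hC⟩ := hgood i hs.1 l hl
  refine ⟨C, ?_, ?_⟩
  · have h1 : IsUnip V.p (qc C) := by
      rw [← hC]
      exact isUnip_mul (V.u_unip hs) (exp_lin_unip hV.1 _)
    intro a b hab
    have h2 := h1 a b hab
    have h3 : qc C a b = ((C a b : ℚ) : ℂ) := rfl
    rw [h3] at h2
    split_ifs at h2 ⊢ with hab'
    · exact_mod_cast h2
    · exact_mod_cast h2
  · rw [← hC, Matrix.mul_assoc, exp_lin_neg_mul hc, Matrix.mul_one]

end MP_cb3775_ag
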