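import Pool.Agent.Lib.MP_cb3775_ag.F.Const

/-!
# The period matrix is locally `C exp (lin M ℓ)` with one rational matrix `C`

Local form of `rational_const`: near a point `s` of `S` and for holomorphic branches `ℓ j` of
`(1 / 2 π i) log y_j` one constant rational matrix `C` works for all points of `S` near `s`.
-/

set_option autoImplicit false

namespace MP_cb3775_ag

open Filter Topology

variable {n N r : ℕ} {B : Base n}

theorem rational_const_local {V : Variation B N} {y : Fin r → Pt n → ℂ}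
    {M : Fin r → Matrix (Fin N) (Fin N) ℤ} (hV : HasUnits V y M)
    (hc : ∀ j k, M j * M k = M k * M j)
    (hτ : ∀ j, ∃ v : Fin N → Fin N → ℤ, (∀ a b, v a b ≠ 0 → V.p a = V.p b - 1) ∧
      ∀ s ∈ B.pts, y j s = ∏ a, ∏ b, V.q a b s ^ v a b)
    (hCM : B.ZDense {s | s ∈ B.pts ∧ V.IsCM s}) {i : V.ι} {s : Pt n} (hs : s ∈ V.U i ∩ B.pts)
    (ℓ : Fin r → Pt n → ℂ) (hℓ : ∀ j, B.HolAt (ℓ j) s)
    (he : ∀ᶠ t in 𝓝[B.pts] s, ∀ j, e (ℓ j t) = y j t) :
    ∃ C : Matrix (Fin N) (Fin N) ℚ, IsUnip V.p C ∧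
      ∀ᶠ t in 𝓝[B.pts] s, V.u i t = qc C * NormedSpace.exp (lin M fun j => ℓ j t) := by
  obtain ⟨σ, hσ⟩ := B.section_exists s hs.2
  have h1 : ∀ j, AnalyticAt ℂ (fun x => ℓ j (x, σ x)) s.1 := fun j => (hℓ j).comp_section hσ
  have h2 : ∀ᶠ x in 𝓝 s.1, ∀ j, e (ℓ j (x, σ x)) = y j (x, σ x) :=
    (Base.eventually_nhdsWithin_iff hσ _).1 he
  obtain ⟨C₀, hC₀⟩ := u_local hV hc hs hσ (fun j x => ℓ j (x, σ x)) h1 h2
  have hss : (s.1, σ s.1) = s := by rw [hσ.2.1]
  have h3 : ∀ j, e (ℓ j s) = y j s := by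
    have := h2.self_of_nhds
    rw [hss] at this
    exact this
  have h4 : V.u i s = C₀ * NormedSpace.exp (lin M fun j => ℓ j s) := by
    have := hC₀.self_of_nhds
    rw [hss] at this
    exact this
  obtain ⟨C, hC, h5⟩ := rational_const hV hc hτ hCM hs (fun j => ℓ j s) h3
  have hu : IsUnit (NormedSpace.exp (lin M fun j => ℓ j s)) := by
    rw [Matrix.isUnit_iff_isUnit_det, isUnip_det (exp_lin_unip hV.1 _)]
    exact isUnit_one
  have h6 : C₀ = qc C := hu.mul_right_cancel (h4.symm.trans h5)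
  refine ⟨C, hC, (Base.eventually_nhdsWithin_iff hσ _).2 ?_⟩
  filter_upwards [hC₀] with x hx
  rw [hx, h6]

end MP_cb3775_ag
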