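import Pool.Agent.Lib.MP_cb3775_ag.F.Mono
import Pool.Agent.Lib.MP_cb3775_ag.A.Tor

/-!
# Units with a dense set of torsion values are algebraically independent or multiplicatively dependent

PROOF. Let `f ≠ 0`, `f (y s) = 0` on `S`; `L, m` from `torsion_hypersurface`. For `v ∈ L` the function
`(∏ j, y j s ^ v j) ^ m` is rational, `β v * it = α v`. At `s ∈ Z` some factor of `∏ v ∈ L, (α v - β v)` is `0`; `Z`
is dense, so the product vanishes on `S`, so one factor does (`Base.mul_vanish`), so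
`(∏ j, y j s ^ v j) ^ m = 1` where `β v ≠ 0`, so on `S` (`Base.eq_of_eq_on_ne`): against `hrel`.
-/

set_option autoImplicit false

namespace MP_cb3775_ag

open Filter Topology

variable {n : ℕ} {B : Base n}

private theorem mono_pow {r : ℕ} (z : Fin r → ℂ) (v : Fin r → ℤ) (m : ℕ) :
    ∏ j, z j ^ (v j * (m : ℤ)) = (∏ j, z j ^ v j) ^ m := by
  rw [← Finset.prod_pow]
  refine Finset.prod_congr rfl fun j _ => ?_
  rw [zpow_mul, zpow_natCast]

theorem algIndep_of_torsion {r : ℕ} (y : Fin r → Pt n → ℂ) (hy : ∀ j, B.IsRational (y j))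
    (hol : ∀ j, ∀ s ∈ B.pts, B.HolAt (y j) s) (hne : ∀ j, ∀ s ∈ B.pts, y j s ≠ 0)
    (Z : Set (Pt n)) (hZ : Z ⊆ B.pts) (hd : B.ZDense Z)
    (htor : ∀ s ∈ Z, ∀ j, ∃ k : ℕ, 0 < k ∧ y j s ^ k = 1)
    (hrel : ∀ v : Fin r → ℤ, v ≠ 0 → ∀ m : ℕ, 0 < m →
      ∃ s ∈ B.pts, (∏ j, y j s ^ v j) ^ m ≠ 1) : B.AlgIndep y := by
  classical
  intro f hf
  by_contra hf0
  obtain ⟨L, m, hm, hL, htr⟩ := torsion_hypersurface f hf0
  have hrat : ∀ v : Fin r → ℤ, B.IsRational fun s => (∏ j, y j s ^ v j) ^ m := by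
    intro v
    have h := isRational_mono y hy hne fun j => v j * (m : ℤ)
    have e1 : (fun s => ∏ j, y j s ^ (v j * (m : ℤ))) = fun s => (∏ j, y j s ^ v j) ^ m := by
      funext s
      exact mono_pow (fun j => y j s) v m
    rwa [e1] at h
  have hcont : ∀ v : Fin r → ℤ, ContinuousOn (fun s => (∏ j, y j s ^ v j) ^ m) B.pts := by
    intro v
    have e1 : (fun s => ∏ j, y j s ^ (v j * (m : ℤ))) = fun s => (∏ j, y j s ^ v j) ^ m := by
      funext s
      exact mono_pow (fun j => y j s) v m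
    intro s hs
    have h := holAt_mono y hol hne (fun j => v j * (m : ℤ)) s hs
    rw [e1] at h
    exact Base.HolAt.continuousWithinAt h hs
  choose α β hβ hαβ using hrat
  -- one factor vanishes identically
  have hfac : ∃ v ∈ L, ∀ s ∈ B.pts, evalAt s (α v - β v) = 0 := by
    by_contra hcon
    push Not at hcon
    obtain ⟨s, hs, hs'⟩ := B.exists_ne_of_finset L (fun v => α v - β v) hcon
    have hprod : ∀ t ∈ B.pts, evalAt t (∏ v ∈ L, (α v - β v)) = 0 := by
      refine hd _ fun t ht => ?_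
      have htp := hZ ht
      obtain ⟨v, hv, hv1⟩ := htr (fun j => y j t) (htor t ht) (hf t htp)
      rw [map_prod]
      refine Finset.prod_eq_zero hv ?_
      have h1 : evalAt t (β v) * (∏ j, y j t ^ v j) ^ m = evalAt t (α v) := hαβ v t htp
      rw [map_sub, ← h1, hv1, mul_one, sub_self]
    have h0 := hprod s hs
    rw [map_prod, Finset.prod_eq_zero_iff] at h0
    obtain ⟨v, hv, hv0⟩ := h0
    exact hs' v hv hv0
  obtain ⟨v, hv, hv0⟩ := hfac
  have hone : ∀ s ∈ B.pts, (∏ j, y j s ^ v j) ^ m = 1 := by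
    refine Base.eq_of_eq_on_ne (β v) (hβ v) (fun s => (∏ j, y j s ^ v j) ^ m) (fun _ => 1)
      (hcont v) continuousOn_const fun s hs hsβ => ?_
    have h1 : evalAt s (β v) * (∏ j, y j s ^ v j) ^ m = evalAt s (α v) := hαβ v s hs
    have h2 := hv0 s hs
    rw [map_sub, ← h1, sub_eq_zero] at h2
    exact mul_left_cancel₀ hsβ (h2.trans (mul_one _).symm)
  obtain ⟨s, hs, hs1⟩ := hrel v (hL v hv) m hm
  exact hs1 (hone s hs)

end MP_cb3775_ag
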