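import Pool.Agent.Lib.MP_cb3775_ag.F.Mono
import Pool.Agent.Lib.MP_cb3775_ag.C.SConn

/-!
# Multiplicatively independent units

PROOF. Let `Λ ⊆ ℤ^m` be the set of the `v` for which `(∏ k, q k s ^ v k) ^ m' = 1` on `S` for some `m' > 0`. It is a
subgroup, and saturated (`c • v ∈ Λ`, `c ≠ 0`, implies `v ∈ Λ`), so `ℤ^m / Λ` is free; choose a basis:
homomorphisms `π : ℤ^m → ℤ^r` surjective with kernel `Λ` and a section `τ : ℤ^r → ℤ^m`, `π ∘ τ = id`. For every
`k` the vector `e_k - τ (π e_k)` is in `Λ`, so the function `q k / ∏ j, (y j) ^ π k j` takes finitely many values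
on `S`, is continuous, so locally constant, so constant (`const_of_locConst`), a root of unity.
-/

set_option autoImplicit false

namespace MP_cb3775_ag

open Filter Topology

variable {n : ℕ} {B : Base n}

/-- A continuous function on `S` whose `m`-th power is `1` is constant. -/
theorem const_of_pow_one (f : Pt n → ℂ) (hf : ContinuousOn f B.pts) (m : ℕ) (hm : 0 < m)
    (h : ∀ s ∈ B.pts, f s ^ m = 1) : ∃ ζ : ℂ, ζ ^ m = 1 ∧ ∀ s ∈ B.pts, f s = ζ := by
  rcases Set.eq_empty_or_nonempty B.pts with he | ⟨s₀, hs₀⟩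
  · refine ⟨1, one_pow m, fun s hs => ?_⟩
    rw [he] at hs
    exact hs.elim
  · refine ⟨f s₀, h s₀ hs₀, fun s hs => ?_⟩
    refine const_of_locConst B f ?_ s hs s₀ hs₀
    intro t ht
    have hfin : ({z : ℂ | z ^ m = 1} \ {f t}).Finite := by
      refine Set.Finite.subset (Polynomial.nthRootsFinset m (1 : ℂ)).finite_toSet ?_
      rintro z ⟨hz, -⟩
      rw [Finset.mem_coe, Polynomial.mem_nthRootsFinset hm]
      exact hz
    have hopen : ({z : ℂ | z ^ m = 1} \ {f t})ᶜ ∈ 𝓝 (f t) :=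
      hfin.isClosed.isOpen_compl.mem_nhds fun hh => hh.2 rfl
    have h1 := (hf t ht) hopen
    filter_upwards [h1, self_mem_nhdsWithin] with u hu hu'
    by_contra hne
    exact hu ⟨h u hu', hne⟩

private theorem Lat_cont {f : Pt n → ℂ} (hf : ∀ s ∈ B.pts, B.HolAt f s) : ContinuousOn f B.pts := by
  intro s hs
  obtain ⟨g, hg, he⟩ := hf s hs
  exact (hg.continuousAt.continuousWithinAt).congr_of_eventuallyEq he
    (he.self_of_nhdsWithin hs)

/-- the monomial -/
private noncomputable def Lat_mono {m : ℕ} (x : Fin m → ℂ) (v : Fin m → ℤ) : ℂ := ∏ k, x k ^ v k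

private theorem Lat_mono_zero {m : ℕ} (x : Fin m → ℂ) : Lat_mono x 0 = 1 := by
  simp [Lat_mono]

private theorem Lat_mono_add {m : ℕ} {x : Fin m → ℂ} (hx : ∀ k, x k ≠ 0) (v w : Fin m → ℤ) :
    Lat_mono x (v + w) = Lat_mono x v * Lat_mono x w := by
  simp only [Lat_mono, Pi.add_apply, ← Finset.prod_mul_distrib]
  exact Finset.prod_congr rfl fun k _ => zpow_add₀ (hx k) _ _

private theorem Lat_mono_smul {m : ℕ} (x : Fin m → ℂ) (c : ℤ) (v : Fin m → ℤ) :
    Lat_mono x (c • v) = Lat_mono x v ^ c := by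
  simp only [Lat_mono, Pi.smul_apply, smul_eq_mul, ← Finset.prod_zpow]
  exact Finset.prod_congr rfl fun k _ => by rw [mul_comm, zpow_mul]

private theorem Lat_mono_single {m : ℕ} (x : Fin m → ℂ) (k : Fin m) :
    Lat_mono x (Pi.single k 1) = x k := by
  rw [Lat_mono, Finset.prod_eq_single k]
  · simp
  · intro j _ hj
    rw [Pi.single_eq_of_ne hj, zpow_zero]
  · intro h
    exact (h (Finset.mem_univ k)).elim

private theorem Lat_mono_sum {m r : ℕ} {x : Fin m → ℂ} (hx : ∀ k, x k ≠ 0) (c : Fin r → ℤ)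
    (τ : Fin r → Fin m → ℤ) :
    Lat_mono x (∑ j, c j • τ j) = ∏ j, Lat_mono x (τ j) ^ c j := by
  have h : ∀ s : Finset (Fin r),
      Lat_mono x (∑ j ∈ s, c j • τ j) = ∏ j ∈ s, Lat_mono x (τ j) ^ c j := by
    intro s
    induction s using Finset.induction_on with
    | empty => simpa using Lat_mono_zero x
    | insert a s ha ih =>
      rw [Finset.sum_insert ha, Finset.prod_insert ha, Lat_mono_add hx, Lat_mono_smul, ih]
  exact h Finset.univ

private theorem Lat_mono_ne {m : ℕ} {x : Fin m → ℂ} (hx : ∀ k, x k ≠ 0) (v : Fin m → ℤ) :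
    Lat_mono x v ≠ 0 :=
  Finset.prod_ne_zero_iff.2 fun k _ => zpow_ne_zero _ (hx k)

/-- The lattice of the relations up to torsion. -/
private noncomputable def Lat_lat {m : ℕ} (q : Fin m → Pt n → ℂ)
    (hne : ∀ k, ∀ s ∈ B.pts, q k s ≠ 0) : Submodule ℤ (Fin m → ℤ) where
  carrier := {v | ∃ m' : ℕ, 0 < m' ∧ ∀ s ∈ B.pts, Lat_mono (fun k => q k s) v ^ m' = 1}
  add_mem' := by
    rintro v w ⟨a, ha, hv⟩ ⟨b, hb, hw⟩
    refine ⟨a * b, Nat.mul_pos ha hb, fun s hs => ?_⟩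
    rw [Lat_mono_add (fun k => hne k s hs), mul_pow, pow_mul, hv s hs, one_pow, one_mul, mul_comm,
      pow_mul, hw s hs, one_pow]
  zero_mem' := ⟨1, one_pos, fun s _ => by rw [Lat_mono_zero, one_pow]⟩
  smul_mem' := by
    rintro c v ⟨a, ha, hv⟩
    refine ⟨a, ha, fun s hs => ?_⟩
    rw [Lat_mono_smul, ← zpow_natCast, ← zpow_mul, mul_comm, zpow_mul, zpow_natCast, hv s hs,
      one_zpow]

private theorem Lat_sat {m : ℕ} (q : Fin m → Pt n → ℂ)
    (hne : ∀ k, ∀ s ∈ B.pts, q k s ≠ 0) (c : ℤ) (v : Fin m → ℤ) (hc : c ≠ 0)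
    (h : c • v ∈ Lat_lat q hne) : v ∈ Lat_lat q hne := by
  obtain ⟨a, ha, hv⟩ := h
  refine ⟨c.natAbs * a, Nat.mul_pos (Int.natAbs_pos.2 hc) ha, fun s hs => ?_⟩
  have h1 := hv s hs
  rw [Lat_mono_smul] at h1
  rw [pow_mul]
  rcases Int.natAbs_eq c with h2 | h2
  · rw [h2, zpow_natCast] at h1
    exact h1
  · rw [h2, zpow_neg, zpow_natCast, inv_pow, inv_eq_one] at h1
    exact h1

theorem exists_units {m : ℕ} (q : Fin m → Pt n → ℂ) (hq : ∀ k, ∀ s ∈ B.pts, B.HolAt (q k) s)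
    (hne : ∀ k, ∀ s ∈ B.pts, q k s ≠ 0) :
    ∃ (r : ℕ) (τ : Fin r → Fin m → ℤ) (π : Fin m → Fin r → ℤ),
      (∀ k, ∃ (ζ : ℂ) (m' : ℕ), 0 < m' ∧ ζ ^ m' = 1 ∧
        ∀ s ∈ B.pts, q k s = ζ * ∏ j, (∏ k', q k' s ^ τ j k') ^ π k j) ∧
      (∀ v : Fin r → ℤ, v ≠ 0 → ∀ m' : ℕ, 0 < m' →
        ∃ s ∈ B.pts, (∏ j, (∏ k', q k' s ^ τ j k') ^ v j) ^ m' ≠ 1) ∧
      ∀ j j', ∑ k, τ j k * π k j' = if j = j' then 1 else 0 := by
  classical
  let L : Submodule ℤ (Fin m → ℤ) := Lat_lat q hne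
  have htf : Module.IsTorsionFree ℤ ((Fin m → ℤ) ⧸ L) := by
    refine Module.IsTorsionFree.of_smul_eq_zero fun c x hx => ?_
    obtain ⟨v, rfl⟩ := L.mkQ_surjective x
    by_cases hc : c = 0
    · exact Or.inl hc
    · right
      rw [← map_smul, Submodule.mkQ_apply, Submodule.Quotient.mk_eq_zero] at hx
      rw [Submodule.mkQ_apply, Submodule.Quotient.mk_eq_zero]
      exact Lat_sat q hne c v hc hx
  let b := Module.finBasis ℤ ((Fin m → ℤ) ⧸ L)
  choose τ hτ using fun j => L.mkQ_surjective (b j)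
  refine ⟨_, τ, fun k j => b.repr (L.mkQ (Pi.single k 1)) j, ?_, ?_, ?_⟩
  · intro k
    have hmem : Pi.single k 1 + (-1 : ℤ) • ∑ j, (b.repr (L.mkQ (Pi.single k 1)) j) • τ j ∈ L := by
      rw [← Submodule.Quotient.mk_eq_zero, ← Submodule.mkQ_apply, map_add, map_smul, map_sum]
      simp only [map_smul, hτ]
      rw [b.sum_repr]
      simp
    obtain ⟨a, ha, hv⟩ := hmem
    set w : Fin m → ℤ := Pi.single k 1 + (-1 : ℤ) • ∑ j, (b.repr (L.mkQ (Pi.single k 1)) j) • τ j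
      with hw
    obtain ⟨ζ, hζ, hc⟩ := const_of_pow_one (B := B) (fun s => Lat_mono (fun k => q k s) w)
      (Lat_cont (holAt_mono q hq hne w)) a ha hv
    refine ⟨ζ, a, ha, hζ, fun s hs => ?_⟩
    have h1 : Lat_mono (fun k => q k s) w = ζ := hc s hs
    have hx : ∀ k, (fun k => q k s) k ≠ 0 := fun k => hne k s hs
    rw [hw, Lat_mono_add hx, Lat_mono_smul, Lat_mono_single, Lat_mono_sum hx] at h1
    have h2 : ∏ j, Lat_mono (fun k => q k s) (τ j) ^ (b.repr (L.mkQ (Pi.single k 1)) j) ≠ 0 :=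
      Finset.prod_ne_zero_iff.2 fun j _ => zpow_ne_zero _ (Lat_mono_ne hx _)
    have h3 : q k s = ζ * ∏ j, Lat_mono (fun k => q k s) (τ j) ^ (b.repr (L.mkQ (Pi.single k 1)) j) := by
      rw [← h1, zpow_neg, zpow_one, mul_assoc, inv_mul_cancel₀ h2, mul_one]
    exact h3
  · intro v hv m' hm'
    by_contra hcon
    push Not at hcon
    refine hv ?_
    have hmem : ∑ j, v j • τ j ∈ L := by
      refine ⟨m', hm', fun s hs => ?_⟩
      rw [Lat_mono_sum (fun k => hne k s hs)]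
      exact hcon s hs
    rw [← Submodule.Quotient.mk_eq_zero, ← Submodule.mkQ_apply, map_sum] at hmem
    simp only [map_smul, hτ] at hmem
    have := Fintype.linearIndependent_iff.1 b.linearIndependent v hmem
    funext j
    exact this j
  · intro j j'
    have h1 : τ j = ∑ k, τ j k • (Pi.single k (1 : ℤ) : Fin m → ℤ) := by
      funext i
      simp [Finset.sum_apply, Pi.single_apply]
    have h2 : b.repr (L.mkQ (τ j)) j' = ∑ k, τ j k * b.repr (L.mkQ (Pi.single k 1)) j' := by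
      conv_lhs => rw [h1]
      rw [map_sum, map_sum]
      simp only [map_smul, Finsupp.finsetSum_apply, Finsupp.smul_apply, smul_eq_mul]
    rw [← h2, hτ, b.repr_self, Finsupp.single_apply]

end MP_cb3775_ag
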