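import Pool.Agent.Lib.MP_cb3775_ag.F.Log

/-!
# The period matrix is locally `C exp (lin M ℓ)`

The derivative of `U x * exp (- lin M (ℓ x))`, `U x = V.u i (x, σ x)`, is `0` near `s.1` (the `M j` commute), so
it is constant on a ball.
-/

set_option autoImplicit false

namespace MP_cb3775_ag

open Filter Topology

variable {n N r : ℕ} {B : Base n}

section Abstract

variable {E : Type} [NormedAddCommGroup E] [NormedSpace ℂ E] {A : Type} [NormedRing A]
  [NormedAlgebra ℂ A] [CompleteSpace A]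

/-- the derivative of `exp (h x)` when the values of `h` commute. -/
private theorem Loc_hasFDerivAt_exp {h : E → A} {h' : E →L[ℂ] A} {x₀ : E}
    (hh : HasFDerivAt h h' x₀) (hc : ∀ x y, Commute (h x) (h y)) :
    HasFDerivAt (fun x => NormedSpace.exp (h x))
      ((ContinuousLinearMap.mul ℂ A (NormedSpace.exp (h x₀))).comp h') x₀ := by
  have h2 : HasFDerivAt NormedSpace.exp (1 : A →L[ℂ] A) (h x₀ - h x₀) := by
    rw [sub_self]
    exact hasFDerivAt_exp_zero
  have h3 : HasFDerivAt (fun x => NormedSpace.exp (h x - h x₀)) ((1 : A →L[ℂ] A).comp h') x₀ :=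
    h2.comp x₀ (hh.sub_const _)
  have h4 := (ContinuousLinearMap.mul ℂ A (NormedSpace.exp (h x₀))).hasFDerivAt.comp x₀ h3
  have h5 : (fun x => NormedSpace.exp (h x)) =
      (⇑(ContinuousLinearMap.mul ℂ A (NormedSpace.exp (h x₀))) ∘
        fun x => NormedSpace.exp (h x - h x₀)) := by
    funext x
    let _ : NormedAlgebra ℚ A := NormedAlgebra.restrictScalars ℚ ℂ A
    have : Commute (h x₀) (h x - h x₀) := (hc x₀ x).sub_right (hc x₀ x₀)
    rw [Function.comp_apply, ContinuousLinearMap.mul_apply', ← NormedSpace.exp_add_of_commute this]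
    congr 1
    abel
  rw [h5]
  exact h4

private theorem Loc_const {U h : E → A} {s : E} (hU : ∀ᶠ x in 𝓝 s, DifferentiableAt ℂ U x)
    (hh : ∀ᶠ x in 𝓝 s, DifferentiableAt ℂ h x) (hc : ∀ x y, Commute (h x) (h y))
    (hd : ∀ᶠ x in 𝓝 s, ∀ w, fderiv ℂ U x w = U x * fderiv ℂ h x w)
    (hcd : ∀ᶠ x in 𝓝 s, ∀ w, Commute (h x) (fderiv ℂ h x w)) :
    ∃ C, ∀ᶠ x in 𝓝 s, U x = C * NormedSpace.exp (h x) := by
  let _ : NormedAlgebra ℚ A := NormedAlgebra.restrictScalars ℚ ℂ A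
  obtain ⟨ε, hε, hball⟩ := Metric.eventually_nhds_iff_ball.1 (hU.and (hh.and (hd.and hcd)))
  have hder : ∀ x ∈ Metric.ball s ε,
      HasFDerivAt (fun x => U x * NormedSpace.exp (-h x)) (0 : E →L[ℂ] A) x := by
    intro x hx
    obtain ⟨h1, h2, h3, h4⟩ := hball x hx
    have h5 := Loc_hasFDerivAt_exp h2.hasFDerivAt.neg (h := fun x => -h x)
      fun x y => ((hc x y).neg_left).neg_right
    have h6 := h1.hasFDerivAt.mul' h5
    have h7 : ∀ w, Commute (NormedSpace.exp (-h x)) (fderiv ℂ h x w) := by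
      intro w
      exact ((h4 w).neg_left).exp_left
    refine h6.congr_fderiv ?_
    ext w
    change U x * (NormedSpace.exp (-h x) * -(fderiv ℂ h x w)) +
      fderiv ℂ U x w * NormedSpace.exp (-h x) = 0
    rw [h3 w, mul_assoc (U x), (h7 w).eq.symm, mul_neg, mul_neg, neg_add_cancel]
  refine ⟨U s * NormedSpace.exp (-h s), Metric.eventually_nhds_iff_ball.2 ⟨ε, hε, fun x hx => ?_⟩⟩
  have hconst : U x * NormedSpace.exp (-h x) = U s * NormedSpace.exp (-h s) := by
    refine (convex_ball s ε).is_const_of_fderivWithin_eq_zero (𝕜 := ℂ)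
      (f := fun x => U x * NormedSpace.exp (-h x))
      (fun z hz => (hder z hz).differentiableAt.differentiableWithinAt) (fun z hz => ?_) hx
      (Metric.mem_ball_self hε)
    rw [fderivWithin_of_isOpen Metric.isOpen_ball hz]
    exact (hder z hz).fderiv
  rw [← hconst, mul_assoc, ← NormedSpace.exp_add_of_commute (Commute.refl (h x)).neg_left,
    neg_add_cancel, NormedSpace.exp_zero, mul_one]

private theorem Loc_const_sum {ι : Type} [Fintype ι] {f : ι → E → ℂ} (S : ι → A)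
    {ℓ : Fin r → E → ℂ} (Z : Fin r → A) {s : E} (hf : ∀ᶠ x in 𝓝 s, ∀ k, DifferentiableAt ℂ (f k) x)
    (hℓ : ∀ᶠ x in 𝓝 s, ∀ j, DifferentiableAt ℂ (ℓ j) x) (hc : ∀ j k, Commute (Z j) (Z k))
    (hd : ∀ᶠ x in 𝓝 s, ∀ w, ∑ k, fderiv ℂ (f k) x w • S k =
      (∑ k, f k x • S k) * ∑ j, fderiv ℂ (ℓ j) x w • Z j) :
    ∃ C, ∀ᶠ x in 𝓝 s, ∑ k, f k x • S k = C * NormedSpace.exp (∑ j, ℓ j x • Z j) := by
  have hcom : ∀ c d : Fin r → ℂ, Commute (∑ j, c j • Z j) (∑ j, d j • Z j) := fun c d =>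
    Commute.sum_left _ _ _ fun j _ => Commute.sum_right _ _ _ fun k _ =>
      ((hc j k).smul_right _).smul_left _
  have h1 : ∀ x, (∀ k, DifferentiableAt ℂ (f k) x) → HasFDerivAt (fun x => ∑ k, f k x • S k)
      (∑ k, (fderiv ℂ (f k) x).smulRight (S k)) x := fun x hx =>
    HasFDerivAt.fun_sum fun k _ => (hx k).hasFDerivAt.smul_const _
  have h2 : ∀ x, (∀ j, DifferentiableAt ℂ (ℓ j) x) → HasFDerivAt (fun x => ∑ j, ℓ j x • Z j)
      (∑ j, (fderiv ℂ (ℓ j) x).smulRight (Z j)) x := fun x hx =>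
    HasFDerivAt.fun_sum fun k _ => (hx k).hasFDerivAt.smul_const _
  refine Loc_const (U := fun x => ∑ k, f k x • S k) (h := fun x => ∑ j, ℓ j x • Z j)
    (hf.mono fun x hx => (h1 x hx).differentiableAt) (hℓ.mono fun x hx => (h2 x hx).differentiableAt)
    (fun x y => hcom _ _) ((hd.and (hf.and hℓ)).mono fun x hx w => ?_) (hℓ.mono fun x hx w => ?_)
  · rw [(h1 x hx.2.1).fderiv, (h2 x hx.2.2).fderiv]
    simp only [sum_apply, ContinuousLinearMap.smulRight_apply]
    exact hx.1 w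
  · rw [(h2 x hx).fderiv]
    simp only [sum_apply, ContinuousLinearMap.smulRight_apply]
    exact hcom _ _

end Abstract

private theorem Loc_mat_sum (X : Matrix (Fin N) (Fin N) ℂ) :
    ∑ k : Fin N × Fin N, X k.1 k.2 • Matrix.single k.1 k.2 (1 : ℂ) = X := by
  rw [Fintype.sum_prod_type]
  conv_rhs => rw [Matrix.matrix_eq_sum_single X]
  simp only [Matrix.smul_single, smul_eq_mul, mul_one]

private theorem Loc_zc_mul (X Y : Matrix (Fin N) (Fin N) ℤ) : zc (X * Y) = zc X * zc Y := by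
  have h := Matrix.map_mul (f := Int.castRingHom ℂ) (L := X) (M := Y)
  simpa [zc] using h

theorem u_local {V : Variation B N} {y : Fin r → Pt n → ℂ}
    {M : Fin r → Matrix (Fin N) (Fin N) ℤ} (hV : HasUnits V y M)
    (hc : ∀ j k, M j * M k = M k * M j) {i : V.ι} {s : Pt n} (hs : s ∈ V.U i ∩ B.pts)
    {σ : (Fin n → ℂ) → ℂ} (hσ : B.IsSection s σ) (ℓ : Fin r → (Fin n → ℂ) → ℂ)
    (hℓ : ∀ j, AnalyticAt ℂ (ℓ j) s.1) (he : ∀ᶠ x in 𝓝 s.1, ∀ j, e (ℓ j x) = y j (x, σ x)) :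
    ∃ C : Matrix (Fin N) (Fin N) ℂ, ∀ᶠ x in 𝓝 s.1,
      V.u i (x, σ x) = C * NormedSpace.exp (lin M fun j => ℓ j x) := by
  have hu : ∀ᶠ x in 𝓝 s.1, ∀ k : Fin N × Fin N,
      DifferentiableAt ℂ (fun x => V.u i (x, σ x) k.1 k.2) x := by
    rw [eventually_all]
    intro k
    filter_upwards [((V.u_hol hs k.1 k.2).comp_section hσ).eventually_analyticAt] with x hx
    exact hx.differentiableAt
  have hl : ∀ᶠ x in 𝓝 s.1, ∀ j, DifferentiableAt ℂ (ℓ j) x := by
    rw [eventually_all]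
    intro j
    filter_upwards [(hℓ j).eventually_analyticAt] with x hx
    exact hx.differentiableAt
  have hd : ∀ᶠ x in 𝓝 s.1, ∀ w, (∑ k : Fin N × Fin N,
      fderiv ℂ (fun x => V.u i (x, σ x) k.1 k.2) x w • Matrix.single k.1 k.2 (1 : ℂ)) =
      (∑ k : Fin N × Fin N, V.u i (x, σ x) k.1 k.2 • Matrix.single k.1 k.2 (1 : ℂ)) *
        ∑ j, fderiv ℂ (ℓ j) x w • zc (M j) := by
    filter_upwards [u_deriv_log hV hs hσ ℓ hℓ he] with x hx w
    rw [Loc_mat_sum]
    have h := Loc_mat_sum (Matrix.of fun a b => fderiv ℂ (fun x => V.u i (x, σ x) a b) x w)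
    simp only [Matrix.of_apply] at h
    rw [h]
    ext a b
    exact hx w a b
  have hcz : ∀ j k, Commute (zc (M j)) (zc (M k)) := fun j k => by
    change zc (M j) * zc (M k) = zc (M k) * zc (M j)
    rw [← Loc_zc_mul, ← Loc_zc_mul, hc]
  have key := open scoped Matrix.Norms.Operator in
    Loc_const_sum (fun k : Fin N × Fin N => Matrix.single k.1 k.2 (1 : ℂ))
      (fun j => zc (M j)) hu hl hcz hd
  obtain ⟨C, hC⟩ := key
  refine ⟨C, hC.mono fun x hx => ?_⟩
  rw [Loc_mat_sum] at hx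
  exact hx

end MP_cb3775_ag
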