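import Pool.Agent.Lib.MP_cb3775_ag.B.Sect

/-!
# Laurent monomials in units

Closure properties of rational and of holomorphic functions on `S`. Hints: `IsRational`: multiply the
denominators (`Base.mul_vanish` for `∃ s, β s * β' s ≠ 0`); for the inverse exchange `α` and `β` (`α` is not
identically `0` because `f` has no zeros).
-/

set_option autoImplicit false

namespace MP_cb3775_ag

open Filter Topology

variable {n : ℕ} {B : Base n}

theorem isRational_const (c : ℂ) : B.IsRational fun _ => c := by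
  obtain ⟨s, hs, -⟩ := B.exists_ne_of_finset (κ := ℕ) ∅ (fun _ => 0) (by simp)
  refine ⟨Polynomial.C (MvPolynomial.C c), 1, ⟨s, hs, ?_⟩, fun t _ => ?_⟩
  · rw [map_one]
    exact one_ne_zero
  · rw [map_one, one_mul]
    simp [evalAt]

theorem isRational_mul {f g : Pt n → ℂ} (hf : B.IsRational f) (hg : B.IsRational g) :
    B.IsRational fun s => f s * g s := by
  obtain ⟨α, β, ⟨s, hs, hβ⟩, h1⟩ := hf
  obtain ⟨α', β', ⟨s', hs', hβ'⟩, h2⟩ := hg
  refine ⟨α * α', β * β', ?_, fun t ht => ?_⟩
  · by_contra hcon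
    push Not at hcon
    rcases B.mul_vanish (f := β) (g := β') (fun t ht => by rw [← map_mul]; exact hcon t ht) with h | h
    · exact hβ (h s hs)
    · exact hβ' (h s' hs')
  · rw [map_mul, map_mul, ← h1 t ht, ← h2 t ht]
    ring

theorem isRational_inv {f : Pt n → ℂ} (hf : B.IsRational f) (hne : ∀ s ∈ B.pts, f s ≠ 0) :
    B.IsRational fun s => (f s)⁻¹ := by
  obtain ⟨α, β, ⟨s, hs, hβ⟩, h1⟩ := hf
  refine ⟨β, α, ⟨s, hs, ?_⟩, fun t ht => ?_⟩
  · rw [← h1 s hs]
    exact mul_ne_zero hβ (hne s hs)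
  · rw [← h1 t ht, mul_assoc, mul_inv_cancel₀ (hne t ht), mul_one]

private theorem mono_isRational_pow {f : Pt n → ℂ} (hf : B.IsRational f) (k : ℕ) :
    B.IsRational fun s => f s ^ k := by
  induction k with
  | zero => simpa using isRational_const (B := B) 1
  | succ k ih => simpa [pow_succ] using isRational_mul ih hf

private theorem mono_isRational_zpow {f : Pt n → ℂ} (hf : B.IsRational f)
    (hne : ∀ s ∈ B.pts, f s ≠ 0) (k : ℤ) : B.IsRational fun s => f s ^ k := by
  cases k with
  | ofNat k => simpa using mono_isRational_pow hf k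
  | negSucc k =>
    have h := isRational_inv (mono_isRational_pow hf (k + 1))
      (fun s hs => pow_ne_zero _ (hne s hs))
    simpa [zpow_negSucc] using h

theorem isRational_mono {m : ℕ} (q : Fin m → Pt n → ℂ) (hq : ∀ k, B.IsRational (q k))
    (hne : ∀ k, ∀ s ∈ B.pts, q k s ≠ 0) (v : Fin m → ℤ) :
    B.IsRational fun s => ∏ k, q k s ^ v k := by
  classical
  have key : ∀ I : Finset (Fin m), B.IsRational fun s => ∏ k ∈ I, q k s ^ v k := by
    intro I
    induction I using Finset.induction_on with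
    | empty => simpa using isRational_const (B := B) 1
    | insert a I ha ih =>
      have h := isRational_mul (mono_isRational_zpow (hq a) (hne a) (v a)) ih
      simpa [Finset.prod_insert ha] using h
  exact key Finset.univ

theorem holAt_mono {m : ℕ} (q : Fin m → Pt n → ℂ) (hq : ∀ k, ∀ s ∈ B.pts, B.HolAt (q k) s)
    (hne : ∀ k, ∀ s ∈ B.pts, q k s ≠ 0) (v : Fin m → ℤ) :
    ∀ s ∈ B.pts, B.HolAt (fun s => ∏ k, q k s ^ v k) s := by
  intro s hs
  have hq' := fun k => hq k s hs
  choose g hg1 hg2 using hq'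
  have hgs : ∀ k, g k s ≠ 0 := fun k => by
    have := (hg2 k).self_of_nhdsWithin hs
    rw [← this]
    exact hne k s hs
  refine ⟨fun t => ∏ k, g k t ^ v k, ?_, ?_⟩
  · exact Finset.analyticAt_fun_prod _ fun k _ => (hg1 k).fun_zpow (hgs k)
  · have hall : ∀ᶠ t in 𝓝[B.pts] s, ∀ k, q k t = g k t := eventually_all.2 hg2
    filter_upwards [hall] with t ht
    exact Finset.prod_congr rfl fun k _ => by rw [ht k]

theorem mono_ne {m : ℕ} (q : Fin m → Pt n → ℂ) (hne : ∀ k, ∀ s ∈ B.pts, q k s ≠ 0)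
    (v : Fin m → ℤ) : ∀ s ∈ B.pts, ∏ k, q k s ^ v k ≠ 0 := by
  intro s hs
  exact Finset.prod_ne_zero_iff.2 fun k _ => zpow_ne_zero _ (hne k s hs)

end MP_cb3775_ag
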