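import Pool.Agent.Lib.MP_cb3775_ag.D.Unit
import Pool.Agent.Lib.MP_cb3775_ag.D.Per
import Pool.Agent.Lib.MP_cb3775_ag.E.Exp
import Pool.Agent.Lib.MP_cb3775_ag.F.Mono

/-!
# The differential equation of the period matrix in terms of the units

`exists_logs`: local branches of `(1 / 2 π i) log y_j` with prescribed values at `s`. `u_deriv_log`: for
`p c = p b - 1`, `e (u c b) = q c b = ζ * ∏ j, y j ^ M j c b = ζ * e (∑ j, M j c b * ℓ j)`, so `u c b - ∑ j, M j c b * ℓ j`
is locally constant (continuous with values in a coset of `ℤ`), so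
`fderiv (u c b) = ∑ j, M j c b • fderiv (ℓ j)`; insert this in `Variation.u_deriv` (`M j c b = 0` if
`p c ≠ p b - 1`).
-/

set_option autoImplicit false

namespace MP_cb3775_ag

open Filter Topology

variable {n N r : ℕ} {B : Base n}

private theorem Log.e_ne (z : ℂ) : e z ≠ 0 := Complex.exp_ne_zero _

private theorem Log.e_analytic {x : ℂ} : AnalyticAt ℂ e x := by
  unfold e
  fun_prop

private theorem Log.e_int_mul (m : ℤ) (z : ℂ) : e (m * z) = e z ^ m := by
  unfold e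
  rw [← Complex.exp_int_mul]
  congr 1
  ring

private theorem Log.e_sum {r : ℕ} (c : Fin r → ℤ) (z : Fin r → ℂ) :
    e (∑ j, (c j : ℂ) * z j) = ∏ j, e (z j) ^ c j := by
  have h : ∀ I : Finset (Fin r), e (∑ j ∈ I, (c j : ℂ) * z j) = ∏ j ∈ I, e (z j) ^ c j := by
    classical
    intro I
    induction I using Finset.induction_on with
    | empty =>
      have := e_int 0
      simpa using this
    | insert a I ha ih =>
      rw [Finset.sum_insert ha, Finset.prod_insert ha, e_add, ih, Log.e_int_mul]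
  exact h _

theorem exists_logs (y : Fin r → Pt n → ℂ) (hol : ∀ j, ∀ s ∈ B.pts, B.HolAt (y j) s)
    (hne : ∀ j, ∀ s ∈ B.pts, y j s ≠ 0) {s : Pt n} (hs : s ∈ B.pts) {σ : (Fin n → ℂ) → ℂ}
    (hσ : B.IsSection s σ) (l : Fin r → ℂ) (hl : ∀ j, e (l j) = y j s) :
    ∃ ℓ : Fin r → (Fin n → ℂ) → ℂ, (∀ j, AnalyticAt ℂ (ℓ j) s.1) ∧ (∀ j, ℓ j s.1 = l j) ∧
      ∀ᶠ x in 𝓝 s.1, ∀ j, e (ℓ j x) = y j (x, σ x) := by
  have h2 : (2 * Real.pi * Complex.I : ℂ) ≠ 0 := Complex.two_pi_I_ne_zero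
  have hsσ : ((s.1, σ s.1) : Pt n) = s := Prod.ext rfl hσ.2.1
  have hfa : ∀ j, AnalyticAt ℂ (fun x => y j (x, σ x)) s.1 := fun j =>
    Base.HolAt.comp_section (hol j s hs) hσ
  have hys : ∀ j, y j (s.1, σ s.1) = y j s := fun j => by rw [hsσ]
  have hquot : ∀ j, AnalyticAt ℂ (fun x => y j (x, σ x) / y j s) s.1 := fun j =>
    (hfa j).div analyticAt_const (hne j s hs)
  refine ⟨fun j x => l j + Complex.log (y j (x, σ x) / y j s) / (2 * Real.pi * Complex.I),
    ?_, ?_, ?_⟩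
  · intro j
    refine analyticAt_const.add (AnalyticAt.div (AnalyticAt.clog (hquot j) ?_)
      analyticAt_const h2)
    rw [hys j, div_self (hne j s hs)]
    exact Complex.one_mem_slitPlane
  · intro j
    simp only
    rw [hys j, div_self (hne j s hs), Complex.log_one, zero_div, add_zero]
  · rw [eventually_all]
    intro j
    have hev : ∀ᶠ x in 𝓝 s.1, y j (x, σ x) ≠ 0 := by
      refine (hfa j).continuousAt.eventually_ne ?_
      rw [hys j]
      exact hne j s hs
    filter_upwards [hev] with x hx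
    rw [e_add, hl j]
    unfold e
    rw [mul_div_cancel₀ _ h2, Complex.exp_log (div_ne_zero hx (hne j s hs)),
      mul_div_cancel₀ _ (hne j s hs)]

/-- the standing hypothesis: the units of `V` are monomials in the `y j` with exponents `M j a b`. -/
def HasUnits (V : Variation B N) (y : Fin r → Pt n → ℂ)
    (M : Fin r → Matrix (Fin N) (Fin N) ℤ) : Prop :=
  (∀ j, IsStep V.p (M j)) ∧ (∀ j, ∀ s ∈ B.pts, B.HolAt (y j) s) ∧
  (∀ j, ∀ s ∈ B.pts, y j s ≠ 0) ∧
  ∀ a b, V.p a = V.p b - 1 → ∃ ζ : ℂ, ζ ≠ 0 ∧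
    ∀ s ∈ B.pts, V.q a b s = ζ * ∏ j, y j s ^ M j a b

/-- a continuous function with values in a coset of the integers is locally constant. -/
private theorem Log.eventually_const {X : Type} [TopologicalSpace X] {h : X → ℂ} {x : X}
    (hc : ContinuousAt h x) (hz : ∀ᶠ t in 𝓝 x, ∃ m : ℤ, h t = h x + m) :
    ∀ᶠ t in 𝓝 x, h t = h x := by
  have h1 : ∀ᶠ t in 𝓝 x, dist (h t) (h x) < 1 := by
    have := Metric.tendsto_nhds.1 hc 1 one_pos
    exact this
  filter_upwards [h1, hz] with t ht ⟨m, hm⟩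
  rw [hm] at ht ⊢
  have h3 : ‖(m : ℂ)‖ < 1 := by
    simpa [dist_eq_norm] using ht
  rw [Complex.norm_intCast] at h3
  have h4 : |m| < 1 := by exact_mod_cast h3
  have h5 : m = 0 := by
    rwa [Int.abs_lt_one_iff] at h4
  rw [h5]
  simp

theorem u_deriv_log {V : Variation B N} {y : Fin r → Pt n → ℂ}
    {M : Fin r → Matrix (Fin N) (Fin N) ℤ} (hV : HasUnits V y M) {i : V.ι} {s : Pt n}
    (hs : s ∈ V.U i ∩ B.pts) {σ : (Fin n → ℂ) → ℂ} (hσ : B.IsSection s σ)
    (ℓ : Fin r → (Fin n → ℂ) → ℂ) (hℓ : ∀ j, AnalyticAt ℂ (ℓ j) s.1)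
    (he : ∀ᶠ x in 𝓝 s.1, ∀ j, e (ℓ j x) = y j (x, σ x)) :
    ∀ᶠ x in 𝓝 s.1, ∀ (w : Fin n → ℂ) (a b : Fin N),
      fderiv ℂ (fun x => V.u i (x, σ x) a b) x w =
        (V.u i (x, σ x) * lin M (fun j => fderiv ℂ (ℓ j) x w)) a b := by
  obtain ⟨hstep, hol, hne, hunits⟩ := hV
  have hsσ : ((s.1, σ s.1) : Pt n) = s := Prod.ext rfl hσ.2.1
  -- membership
  have hmem : ∀ᶠ x in 𝓝 s.1, ((x, σ x) : Pt n) ∈ V.U i ∩ B.pts := by
    have hc : ContinuousAt (fun x => ((x, σ x) : Pt n)) s.1 :=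
      continuousAt_id.prodMk hσ.1.continuousAt
    have hU : V.U i ∈ 𝓝 ((s.1, σ s.1) : Pt n) := by
      rw [hsσ]
      exact (V.isOpen i).mem_nhds hs.1
    filter_upwards [hc hU, hσ.eventually_mem] with x hx hx'
    exact ⟨hx, hx'⟩
  have hua : ∀ c b, AnalyticAt ℂ (fun x => V.u i (x, σ x) c b) s.1 := fun c b =>
    Base.HolAt.comp_section (V.u_hol hs c b) hσ
  -- the entries between neighbouring weights
  have hconst : ∀ c b, V.p c = V.p b - 1 → ∀ᶠ x in 𝓝 s.1,
      V.u i (x, σ x) c b - ∑ j, (M j c b : ℂ) * ℓ j x =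
        V.u i (s.1, σ s.1) c b - ∑ j, (M j c b : ℂ) * ℓ j s.1 := by
    intro c b hcb
    obtain ⟨ζ, hζ, hq⟩ := hunits c b hcb
    have hez : ∀ᶠ x in 𝓝 s.1, e (V.u i (x, σ x) c b - ∑ j, (M j c b : ℂ) * ℓ j x) = ζ := by
      filter_upwards [hmem, he] with x hx hex
      have h1 : e (V.u i (x, σ x) c b) = ζ * ∏ j, y j (x, σ x) ^ M j c b := by
        rw [← V.q_eq hcb hx]
        exact hq _ hx.2
      have h3 : e (∑ j, (M j c b : ℂ) * ℓ j x) = ∏ j, y j (x, σ x) ^ M j c b := by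
        rw [Log.e_sum]
        refine Finset.prod_congr rfl fun j _ => ?_
        rw [hex j]
      have h4 : e (V.u i (x, σ x) c b - ∑ j, (M j c b : ℂ) * ℓ j x) *
          e (∑ j, (M j c b : ℂ) * ℓ j x) = ζ * e (∑ j, (M j c b : ℂ) * ℓ j x) := by
        rw [← e_add, sub_add_cancel, h1, h3]
      exact mul_right_cancel₀ (Log.e_ne _) h4
    have hcont : ContinuousAt (fun x => V.u i (x, σ x) c b - ∑ j, (M j c b : ℂ) * ℓ j x) s.1 := by
      refine (hua c b).continuousAt.sub ?_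
      refine tendsto_finsetSum _ fun j _ => ?_
      exact (continuousAt_const.mul (hℓ j).continuousAt)
    refine Log.eventually_const hcont ?_
    have hez0 := hez.self_of_nhds
    filter_upwards [hez] with x hx
    rw [← e_eq_iff, hx, hez0]
  have hconst' : ∀ᶠ x in 𝓝 s.1, ∀ c b, V.p c = V.p b - 1 → ∀ᶠ t in 𝓝 x,
      V.u i (t, σ t) c b - ∑ j, (M j c b : ℂ) * ℓ j t =
        V.u i (s.1, σ s.1) c b - ∑ j, (M j c b : ℂ) * ℓ j s.1 := by
    rw [eventually_all]
    intro c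
    rw [eventually_all]
    intro b
    by_cases hcb : V.p c = V.p b - 1
    · filter_upwards [(hconst c b hcb).eventually_nhds] with x hx _
      exact hx
    · exact Eventually.of_forall fun x h => absurd h hcb
  have hℓd : ∀ᶠ x in 𝓝 s.1, ∀ j, DifferentiableAt ℂ (ℓ j) x := by
    rw [eventually_all]
    intro j
    filter_upwards [(hℓ j).eventually_analyticAt] with x hx
    exact hx.differentiableAt
  filter_upwards [V.u_deriv hs hσ, hconst', hℓd] with x hx hxc hxd w a b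
  rw [hx w a b, Matrix.mul_apply]
  refine Finset.sum_congr rfl fun c _ => ?_
  congr 1
  have hlin : lin M (fun j => fderiv ℂ (ℓ j) x w) c b =
      ∑ j, fderiv ℂ (ℓ j) x w * (M j c b : ℂ) := by
    unfold lin zc
    rw [Matrix.sum_apply]
    refine Finset.sum_congr rfl fun j _ => ?_
    rw [Matrix.smul_apply, Matrix.map_apply, smul_eq_mul]
  rw [hlin]
  split_ifs with hcb
  · have hev : (fun t => V.u i (t, σ t) c b) =ᶠ[𝓝 x] fun t =>
        (V.u i (s.1, σ s.1) c b - ∑ j, (M j c b : ℂ) * ℓ j s.1) +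
          ∑ j, (M j c b : ℂ) * ℓ j t := by
      filter_upwards [hxc c b hcb] with t ht
      rw [← ht]
      ring
    rw [hev.fderiv_eq]
    have hd : HasFDerivAt (fun t => (V.u i (s.1, σ s.1) c b - ∑ j, (M j c b : ℂ) * ℓ j s.1) +
          ∑ j, (M j c b : ℂ) * ℓ j t) (∑ j, (M j c b : ℂ) • fderiv ℂ (ℓ j) x) x := by
      refine HasFDerivAt.const_add _ ?_
      have := HasFDerivAt.fun_sum (u := Finset.univ) (A := fun j t => (M j c b : ℂ) * ℓ j t)
        (A' := fun j => (M j c b : ℂ) • fderiv ℂ (ℓ j) x) (x := x)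
        fun j _ => (hxd j).hasFDerivAt.const_mul _
      exact this
    rw [hd.fderiv]
    rw [ContinuousLinearMap.sum_apply]
    refine Finset.sum_congr rfl fun j _ => ?_
    rw [ContinuousLinearMap.smul_apply, smul_eq_mul, mul_comm]
  · symm
    refine Finset.sum_eq_zero fun j _ => ?_
    have : M j c b = 0 := by
      by_contra hM
      exact hcb (hstep j c b hM)
    rw [this]
    simp

end MP_cb3775_ag
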